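import Pool.Agent.H540R3.FL

set_option autoImplicit false

/-!
# A diagram group without Thompson's group `F` and an element which dies in all linear, all
equationally Noetherian and all finite groups

The group is the diagram group over `⟨x, p, y | x = xp, x = xpp, y = py, y = ppy⟩` at `xy`. It
contains elements `u, l, t` such that `u` commutes with `t⁻ⁿ l tⁿ` for all `n ≥ 0` but not with
`t l t⁻¹`. The nontrivial element `[u, t l t⁻¹]` of the subgroup generated by `u, l, t` is in the
kernel of every homomorphism of this subgroup to the unit group of an algebra which is integral over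
a commutative ring, and of every homomorphism to an equationally Noetherian or finite group.
-/

namespace Pool.Agent.Results.MP_f02a84_al.NotResiduallyLinear

open Pool.Agent.H599R3 H540FL

/-- Equationally Noetherian groups (for equations without coefficients): every system of equations
`r = 1` in finitely many variables is equivalent to a finite subsystem. -/
def EqNoetherian (Γ : Type*) [Group Γ] : Prop :=
  ∀ (n : ℕ) (S : Set (FreeGroup (Fin n))), ∃ T : Finset (FreeGroup (Fin n)),
    (∀ r ∈ T, r ∈ S) ∧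
    ∀ x : Fin n → Γ, (∀ r ∈ T, FreeGroup.lift x r = 1) → ∀ r ∈ S, FreeGroup.lift x r = 1

/-- commuting with half an orbit, in an algebra over a commutative ring -/
theorem int_half {S E : Type*} [CommRing S] [Ring E] [Algebra S E] (u l : E) (t : Eˣ)
    (ht : IsIntegral S (t : E)) (ht' : IsIntegral S ((t⁻¹ : Eˣ) : E))
    (hc : ∀ n : ℕ, u * ((↑(t⁻¹ ^ n) : E) * l * (↑(t ^ n) : E)) =
      ((↑(t⁻¹ ^ n) : E) * l * (↑(t ^ n) : E)) * u) :
    u * ((t : E) * l * (↑t⁻¹ : E)) = ((t : E) * l * (↑t⁻¹ : E)) * u := by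
  let B : E →ₗ[S] E →ₗ[S] E := (LinearMap.mul S E).comp (LinearMap.mulRight S l)
  have hB : ∀ x y, B x y = x * l * y := fun x y => rfl
  let U1 : Submodule S E := Subalgebra.toSubmodule (Algebra.adjoin S {(t : E)})
  let U2 : Submodule S E := Subalgebra.toSubmodule (Algebra.adjoin S {((t⁻¹ : Eˣ) : E)})
  let V : Submodule S E := Submodule.map₂ B U1 U2
  have hVfg : V.FG := Submodule.FG.map₂ B ht.fg_adjoin_singleton ht'.fg_adjoin_singleton
  let c : E →ₗ[S] E :=
    (LinearMap.mulRight S ((t⁻¹ : Eˣ) : E)).comp (LinearMap.mulLeft S (t : E))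
  have hcv : ∀ x, c x = (t : E) * x * (↑t⁻¹ : E) := fun x => rfl
  have hV : ∀ x ∈ V, c x ∈ V := by
    have h : V ≤ V.comap c := by
      apply Submodule.map₂_le.2
      intro x hx y hy
      change c (B x y) ∈ V
      have e : c (B x y) = B ((t : E) * x) (y * (↑t⁻¹ : E)) := by
        rw [hcv, hB, hB]
        simp only [mul_assoc]
      rw [e]
      refine Submodule.apply_mem_map₂ B ?_ ?_
      · exact Subalgebra.mul_mem _ (Algebra.subset_adjoin rfl) hx
      · exact Subalgebra.mul_mem _ hy (Algebra.subset_adjoin rfl)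
    exact h
  have hl : l ∈ V := by
    have h : l = B 1 1 := by rw [hB, one_mul, mul_one]
    rw [h]
    exact Submodule.apply_mem_map₂ B (Subalgebra.one_mem _) (Subalgebra.one_mem _)
  have hfin : Module.Finite S V := Module.Finite.iff_fg.2 hVfg
  obtain ⟨p, hp, hpc⟩ := LinearMap.exists_monic_and_aeval_eq_zero S (c.restrict hV)
  have hf : ∀ i : ℕ, (((c.restrict hV) ^ i) ⟨l, hl⟩ : V) = (c ^ i) l := by
    intro i
    induction i with
    | zero => rfl
    | succ i ih =>
      rw [pow_succ', Module.End.mul_apply, pow_succ', Module.End.mul_apply, ← ih]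
      rfl
  have hpl : ∑ i ∈ Finset.range (p.natDegree + 1), p.coeff i • ((c ^ i) l) = 0 := by
    have h := congrArg (fun f : Module.End S V => ((f ⟨l, hl⟩ : V) : E)) hpc
    simp only [Polynomial.aeval_eq_sum_range, LinearMap.sum_apply, LinearMap.smul_apply,
      LinearMap.zero_apply, Submodule.coe_sum, Submodule.coe_smul, Submodule.coe_zero, hf] at h
    exact h
  have hcn : ∀ i : ℕ, (c ^ i) l = (↑(t ^ i) : E) * l * (↑(t⁻¹ ^ i) : E) := by
    intro i
    induction i with
    | zero => simp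
    | succ i ih =>
      rw [pow_succ', Module.End.mul_apply, ih, hcv, pow_succ' t, pow_succ t⁻¹]
      push_cast
      simp only [mul_assoc]
  let W : Submodule S E := LinearMap.eqLocus (LinearMap.mulLeft S u) (LinearMap.mulRight S u)
  have hW : ∀ x : E, x ∈ W ↔ u * x = x * u := fun x => LinearMap.mem_eqLocus
  rcases Nat.eq_zero_or_pos p.natDegree with hd | hd
  · have h1 : p = 1 := Polynomial.eq_one_of_monic_natDegree_zero hp hd
    rw [h1] at hpl
    simp only [Polynomial.natDegree_one, zero_add, Finset.range_one, Finset.sum_singleton,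
      Polynomial.coeff_one_zero, pow_zero, one_smul, Module.End.one_apply] at hpl
    rw [hpl]
    simp
  · obtain ⟨k, hk⟩ : ∃ k, p.natDegree = k + 1 := ⟨p.natDegree - 1, by omega⟩
    rw [hk, Finset.sum_range_succ] at hpl
    have hlc : p.coeff (k + 1) = 1 := by
      have := hp.coeff_natDegree
      rwa [hk] at this
    rw [hlc, one_smul] at hpl
    -- conjugate
    have h2 := congrArg (fun x : E => (↑(t⁻¹ ^ k) : E) * x * (↑(t ^ k) : E)) hpl
    simp only [mul_add, add_mul, mul_zero, zero_mul, Finset.mul_sum, Finset.sum_mul] at h2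
    have h3 : (↑(t⁻¹ ^ k) : E) * ((c ^ (k + 1)) l) * (↑(t ^ k) : E) =
        (t : E) * l * (↑t⁻¹ : E) := by
      rw [hcn]
      have e1 : t⁻¹ ^ k * t ^ (k + 1) = t := by
        rw [pow_succ, ← mul_assoc, inv_pow, inv_mul_cancel, one_mul]
      have e2 : t⁻¹ ^ (k + 1) * t ^ k = t⁻¹ := by
        rw [pow_succ', mul_assoc, inv_pow, inv_mul_cancel, mul_one]
      calc (↑(t⁻¹ ^ k) : E) * ((↑(t ^ (k + 1)) : E) * l * (↑(t⁻¹ ^ (k + 1)) : E)) * (↑(t ^ k) : E)
          = (↑(t⁻¹ ^ k * t ^ (k + 1)) : E) * l * (↑(t⁻¹ ^ (k + 1) * t ^ k) : E) := by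
            rw [Units.val_mul, Units.val_mul]
            simp only [mul_assoc]
        _ = (t : E) * l * (↑t⁻¹ : E) := by rw [e1, e2]
    rw [h3] at h2
    have h4 : ∀ i ∈ Finset.range (k + 1),
        (↑(t⁻¹ ^ k) : E) * (p.coeff i • ((c ^ i) l)) * (↑(t ^ k) : E) ∈ W := by
      intro i hi
      have hik : i ≤ k := by
        have := Finset.mem_range.1 hi
        omega
      obtain ⟨j, rfl⟩ := Nat.exists_eq_add_of_le hik
      rw [mul_smul_comm, smul_mul_assoc]
      apply W.smul_mem
      rw [hW, hcn]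
      have e1 : t⁻¹ ^ (i + j) * t ^ i = t⁻¹ ^ j := by
        rw [add_comm i j, pow_add, mul_assoc, inv_pow t i, inv_mul_cancel, mul_one]
      have e2 : t⁻¹ ^ i * t ^ (i + j) = t ^ j := by
        rw [pow_add, ← mul_assoc, inv_pow t i, inv_mul_cancel, one_mul]
      have e3 : (↑(t⁻¹ ^ (i + j)) : E) * ((↑(t ^ i) : E) * l * (↑(t⁻¹ ^ i) : E)) *
          (↑(t ^ (i + j)) : E) = (↑(t⁻¹ ^ j) : E) * l * (↑(t ^ j) : E) := by
        rw [← e1, ← e2, Units.val_mul, Units.val_mul]
        simp only [mul_assoc]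
      rw [e3]
      exact hc j
    have h5 : (t : E) * l * (↑t⁻¹ : E) = -∑ i ∈ Finset.range (k + 1),
        (↑(t⁻¹ ^ k) : E) * (p.coeff i • ((c ^ i) l)) * (↑(t ^ k) : E) :=
      eq_neg_of_add_eq_zero_right h2
    have h6 : (t : E) * l * (↑t⁻¹ : E) ∈ W := by
      rw [h5]
      exact W.neg_mem (W.sum_mem h4)
    exact (hW _).1 h6

/-- commuting with half an orbit, in an equationally Noetherian group -/
theorem eq_half {Γ : Type*} [Group Γ] (h : EqNoetherian Γ) (u l t : Γ)
    (hc : ∀ n : ℕ, u * (t⁻¹ ^ n * l * t ^ n) = (t⁻¹ ^ n * l * t ^ n) * u) :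
    u * (t * l * t⁻¹) = (t * l * t⁻¹) * u := by
  let r : ℕ → FreeGroup (Fin 3) := fun n =>
    FreeGroup.of 0 * (FreeGroup.of 2 ^ n * FreeGroup.of 1 * (FreeGroup.of 2)⁻¹ ^ n) *
      (FreeGroup.of 0)⁻¹ * (FreeGroup.of 2 ^ n * FreeGroup.of 1 * (FreeGroup.of 2)⁻¹ ^ n)⁻¹
  obtain ⟨T, hT, hTr⟩ := h 3 (Set.range r)
  have hr : ∀ (x : Fin 3 → Γ) (n : ℕ), FreeGroup.lift x (r n) = 1 ↔
      x 0 * (x 2 ^ n * x 1 * (x 2)⁻¹ ^ n) = (x 2 ^ n * x 1 * (x 2)⁻¹ ^ n) * x 0 := by
    intro x n
    simp only [r, map_mul, map_pow, map_inv, FreeGroup.lift_apply_of]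
    rw [mul_inv_eq_one, mul_inv_eq_iff_eq_mul]
  obtain ⟨N, hN⟩ : ∃ N : ℕ, ∀ w ∈ T, ∃ n ≤ N, r n = w := by
    classical
    have hex : ∀ w ∈ T, ∃ n, r n = w := fun w hw => hT w hw
    choose! f hf using hex
    exact ⟨T.sup f, fun w hw => ⟨f w, Finset.le_sup hw, hf w hw⟩⟩
  have key := hTr ![u, t⁻¹ ^ N * l * t ^ N, t] (by
    intro w hw
    obtain ⟨n, hn, rfl⟩ := hN w hw
    rw [hr]
    change u * (t ^ n * (t⁻¹ ^ N * l * t ^ N) * t⁻¹ ^ n) =
      (t ^ n * (t⁻¹ ^ N * l * t ^ N) * t⁻¹ ^ n) * u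
    obtain ⟨j, rfl⟩ := Nat.exists_eq_add_of_le hn
    have e : t ^ n * (t⁻¹ ^ (n + j) * l * t ^ (n + j)) * t⁻¹ ^ n = t⁻¹ ^ j * l * t ^ j := by
      rw [pow_add t⁻¹ n j, add_comm n j, pow_add t j n]
      simp only [inv_pow]
      group
    rw [e]
    exact hc j) (r (N + 1)) ⟨N + 1, rfl⟩
  rw [hr] at key
  change u * (t ^ (N + 1) * (t⁻¹ ^ N * l * t ^ N) * t⁻¹ ^ (N + 1)) =
    (t ^ (N + 1) * (t⁻¹ ^ N * l * t ^ N) * t⁻¹ ^ (N + 1)) * u at key
  have e : t ^ (N + 1) * (t⁻¹ ^ N * l * t ^ N) * t⁻¹ ^ (N + 1) = t * l * t⁻¹ := by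
    rw [pow_succ' t N, pow_succ t⁻¹ N]
    simp only [inv_pow]
    group
  rwa [e] at key

/-- commuting with half an orbit, in a finite group -/
theorem fin_half {Γ : Type*} [Group Γ] [Finite Γ] (u l t : Γ)
    (hc : ∀ n : ℕ, u * (t⁻¹ ^ n * l * t ^ n) = (t⁻¹ ^ n * l * t ^ n) * u) :
    u * (t * l * t⁻¹) = (t * l * t⁻¹) * u := by
  obtain ⟨m, hm⟩ : ∃ m, Nat.card Γ = m + 1 :=
    ⟨Nat.card Γ - 1, by have := Nat.card_pos (α := Γ); omega⟩
  have h1 : t ^ (m + 1) = 1 := by rw [← hm]; exact pow_card_eq_one'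
  have h2 : t ^ m = t⁻¹ := by
    rw [pow_succ] at h1
    exact eq_inv_of_mul_eq_one_left h1
  have h3 : t⁻¹ ^ m = t := by rw [inv_pow, h2, inv_inv]
  have h4 := hc m
  rwa [h2, h3] at h4

/-- the three elements -/
noncomputable abbrev gens : Set DD := {eu, lam0 0, et}

/-- the subgroup -/
noncomputable abbrev HH : Subgroup DD := Subgroup.closure gens

/-- the elements of the subgroup -/
noncomputable def hu : HH := ⟨eu, Subgroup.subset_closure (by simp)⟩
/-- the elements of the subgroup -/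
noncomputable def hl : HH := ⟨lam0 0, Subgroup.subset_closure (by simp)⟩
/-- the elements of the subgroup -/
noncomputable def ht : HH := ⟨et, Subgroup.subset_closure (by simp)⟩

/-- the commutator -/
noncomputable def gg : HH := hu * (ht * hl * ht⁻¹) * hu⁻¹ * (ht * hl * ht⁻¹)⁻¹

theorem h_comm (n : ℕ) : hu * (ht⁻¹ ^ n * hl * ht ^ n) = (ht⁻¹ ^ n * hl * ht ^ n) * hu :=
  Subtype.ext (eu_comm n)

theorem gg_ne : gg ≠ 1 := by
  intro h
  unfold gg at h
  rw [mul_inv_eq_one, mul_inv_eq_iff_eq_mul] at h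
  exact eu_not_comm (congrArg Subtype.val h)

theorem kill {Γ : Type*} [Group Γ] (φ : HH →* Γ)
    (h : φ hu * (φ ht * φ hl * (φ ht)⁻¹) = (φ ht * φ hl * (φ ht)⁻¹) * φ hu) : φ gg = 1 := by
  unfold gg
  simp only [map_mul, map_inv]
  rw [mul_inv_eq_one, mul_inv_eq_iff_eq_mul]
  exact h

theorem map_comm {Γ : Type*} [Group Γ] (φ : HH →* Γ) (n : ℕ) :
    φ hu * ((φ ht)⁻¹ ^ n * φ hl * (φ ht) ^ n) = ((φ ht)⁻¹ ^ n * φ hl * (φ ht) ^ n) * φ hu := by
  have h := congrArg φ (h_comm n)
  simpa only [map_mul, map_pow, map_inv] using h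

theorem kill_int {S E : Type*} [CommRing S] [Ring E] [Algebra S E] (hE : ∀ x : E, IsIntegral S x)
    (φ : HH →* Eˣ) : φ gg = 1 := by
  apply kill
  apply Units.ext
  have h := int_half (S := S) (φ hu : E) (φ hl : E) (φ ht) (hE _) (hE _) (by
    intro m
    have h1 := congrArg (fun z : Eˣ => (z : E)) (map_comm φ m)
    simpa only [Units.val_mul] using h1)
  simpa only [Units.val_mul] using h

theorem kill_eq {Γ : Type*} [Group Γ] (h : EqNoetherian Γ) (φ : HH →* Γ) : φ gg = 1 :=
  kill φ (eq_half h _ _ _ (map_comm φ))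

theorem kill_fin {Γ : Type*} [Group Γ] [Finite Γ] (φ : HH →* Γ) : φ gg = 1 :=
  kill φ (fin_half _ _ _ (map_comm φ))

theorem R0_finite : R0.Finite := by
  have h : R0 ⊆ Set.range rL ∪ Set.range rR := by
    rintro r ⟨c, rfl | rfl⟩
    · exact Or.inl ⟨c, rfl⟩
    · exact Or.inr ⟨c, rfl⟩
  exact ((Set.finite_range rL).union (Set.finite_range rR)).subset h

theorem Al_finite : Finite Al := by
  have h : (Set.univ : Set Al) ⊆ {Al.x, Al.p, Al.y} := by
    intro a _
    cases a <;> simp
  exact Set.finite_univ_iff.1 ((Set.toFinite {Al.x, Al.p, Al.y}).subset h)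

/-- The element `g` of the group `H` is in the kernel of every homomorphism from `H` to the unit
group of an algebra over a commutative ring `S` all of whose elements are integral over `S`. -/
def DiesIntegral.{u, v, w} {H : Type w} [Group H] (g : H) : Prop :=
  ∀ (S : Type u) (E : Type v) [CommRing S] [Ring E] [Algebra S E], (∀ x : E, IsIntegral S x) →
    ∀ φ : H →* Eˣ, φ g = 1

/-- The element `g` of the group `H` is in the kernel of every homomorphism from `H` to an
equationally Noetherian group. -/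
def DiesEqNoetherian.{u, w} {H : Type w} [Group H] (g : H) : Prop :=
  ∀ (Γ : Type u) [Group Γ], EqNoetherian Γ → ∀ φ : H →* Γ, φ g = 1

/-- The element `g` of the group `H` is in the kernel of every homomorphism from `H` to a finite
group. -/
def DiesFinite.{u, w} {H : Type w} [Group H] (g : H) : Prop :=
  ∀ (Γ : Type u) [Group Γ] [Finite Γ] (φ : H →* Γ), φ g = 1

/-- `G` does not embed in `GL_n(S)` for any `n` and any commutative ring `S`. -/
def NotLinear.{u, w} (G : Type w) [Group G] : Prop :=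
  ∀ (n : ℕ) (S : Type u) [CommRing S] (φ : G →* Matrix.GeneralLinearGroup (Fin n) S),
    ¬ Function.Injective φ

/-- `G` has no subgroup isomorphic to Thompson's group `F`. -/
def NoThompson.{w} (G : Type w) [Group G] : Prop :=
  ∀ φ : ThompsonF →* G, ¬ Function.Injective φ

/-- a finite semigroup presentation whose relations are pairs of nonempty words -/
def FinPres {A : Type} (R : Set (List A × List A)) : Prop :=
  Finite A ∧ R.Finite ∧ ∀ r ∈ R, r.1 ≠ [] ∧ r.2 ≠ []

/-- There are a finite semigroup presentation `⟨A | R⟩`, a nonempty word `w` such that the diagram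
group `D R w` has no subgroup isomorphic to Thompson's group `F`, elements `a`, `b`, `c` of it and a
nontrivial element `g` of the subgroup generated by `a`, `b`, `c` which is in the kernel of

* every homomorphism of this subgroup to the unit group of an algebra over a commutative ring `S`
  all of whose elements are integral over `S`,
* every homomorphism of this subgroup to an equationally Noetherian group,
* every homomorphism of this subgroup to a finite group.

In particular, the diagram group does not embed in `GL_n(S)` for any commutative ring `S`, and it is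
not residually finite. -/
theorem result.{u, v} : ∃ (A : Type) (R : Set (List A × List A)) (w : List A),
    FinPres R ∧ w ≠ [] ∧ NoThompson (D R w) ∧
    (∃ (a b c : D R w) (g : Subgroup.closure ({a, b, c} : Set (D R w))), g ≠ 1 ∧
      DiesIntegral.{u, v} g ∧ DiesEqNoetherian.{u} g ∧ DiesFinite.{u} g) ∧
    NotLinear.{u} (D R w) ∧ ¬ Group.ResiduallyFinite (D R w) := by
  refine ⟨Al, R0, W 0, ⟨Al_finite, R0_finite, ?_⟩, List.cons_ne_nil _ _, no_F,
    ⟨eu, lam0 0, et, gg, gg_ne, ?_, ?_, ?_⟩, ?_, not_rf⟩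
  · rintro r ⟨c, rfl | rfl⟩
    · exact ⟨List.cons_ne_nil _ _, List.cons_ne_nil _ _⟩
    · exact ⟨List.cons_ne_nil _ _, by simp⟩
  · intro S E _ _ _ hE φ
    exact kill_int hE φ
  · intro Γ _ hΓ φ
    exact kill_eq hΓ φ
  · intro Γ _ _ φ
    exact kill_fin φ
  · intro n S _ φ hφ
    have h := kill_int (S := S) (E := Matrix (Fin n) (Fin n) S)
      (fun x => Algebra.IsIntegral.isIntegral x) (φ.comp HH.subtype)
    apply gg_ne
    apply Subtype.ext
    apply hφ
    rw [OneMemClass.coe_one, map_one]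
    exact h

end Pool.Agent.Results.MP_f02a84_al.NotResiduallyLinear
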